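import Pool.Agent.Y8.Stm6

/-!
NS/Y8 S_TSMH (job 346, helper8): joint smoothness of `TT g v` on open sets of times, from `S_TSM`
by an affine change of time.
-/

open MeasureTheory Set Metric Filter Topology
open scoped ContDiff

namespace Pool.Agent.Y577.NS

open H459R3.NS W221.NS Pool.Agent.Y8

theorem pd_cmul (c : ℝ) (f : V → ℝ) (j : Fin 3) (x : V) :
    pd j (fun y => c * f y) x = c * pd j f x := by
  unfold pd
  have h : (fun y => c * f y) = c • f := rfl
  rw [h, fderiv_const_smul_field]
  rfl

theorem KK_cmul (g f : V → ℝ) (c : ℝ) : KK g (fun y => c * f y) = fun x => c * KK g f x := by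
  funext x
  unfold KK
  rw [← integral_const_mul]
  congr 1
  funext y
  ring

theorem TT_cmul (g : V → ℝ) (c : ℝ) (f : V → V) (x : V) (i : Fin 3) :
    TT g (fun y i => c * f y i) x i = c * TT g f x i := by
  unfold TT
  rw [Finset.mul_sum]
  refine Finset.sum_congr rfl fun j _ => ?_
  have h : (fun y => chi y * (pd i (fun w => c * f w j) y - pd j (fun w => c * f w i) y)) =
      fun y => c * (chi y * (pd i (fun w => f w j) y - pd j (fun w => f w i) y)) := by
    funext y
    rw [pd_cmul, pd_cmul]
    ring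
  rw [h, KK_cmul, pd_cmul]

theorem deriv_aff (f : ℝ → ℝ) (t d : ℝ) :
    deriv (fun s => f (t + d * (2 * s + 1))) (-1 / 2) = 2 * d * deriv f t := by
  have h1 : (fun s => f (t + d * (2 * s + 1))) = fun s => (fun u => f (u + (t + d))) (2 * d * s) := by
    funext s
    simp only
    congr 1
    ring
  rw [h1, deriv_comp_mul_left (2 * d) (fun u => f (u + (t + d))) (-1 / 2), deriv_comp_add_const]
  have h2 : 2 * d * (-1 / 2) + (t + d) = t := by ring
  rw [h2]
  rfl

theorem t_TSMH (h : S_TSM) : S_TSMH := by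
  intro g C hg H v hH hv
  have key : ∀ t ∈ H, ∃ d > 0,
      ContDiffOn ℝ ∞ (fun z : ℝ × V => TT g (v z.1) z.2) (Ioo (t - d) (t + d) ×ˢ univ) ∧
      ∀ x i, deriv (fun s => TT g (v s) x i) t = TT g (fun y i => deriv (fun s => v s y i) t) x i := by
    intro t ht
    obtain ⟨d, hd, hsub⟩ := Metric.isOpen_iff.mp hH t ht
    have hsub' : ∀ s, |s - t| < d → s ∈ H := fun s hs => hsub (by
      rw [Metric.mem_ball, Real.dist_eq]; exact hs)
    refine ⟨d, hd, ?_⟩
    have hd0 : d ≠ 0 := hd.ne'
    have hmap : ∀ s ∈ Ioo (-1 : ℝ) 0, t + d * (2 * s + 1) ∈ H := by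
      intro s hs
      apply hsub'
      have e : t + d * (2 * s + 1) - t = d * (2 * s + 1) := by ring
      rw [e, abs_mul, abs_of_pos hd]
      have h3 : |2 * s + 1| < 1 := by
        rw [abs_lt]; constructor <;> linarith [hs.1, hs.2]
      calc d * |2 * s + 1| < d * 1 := mul_lt_mul_of_pos_left h3 hd
        _ = d := mul_one d
    have hv' : ContDiffOn ℝ ∞ (fun z : ℝ × V => (fun s => v (t + d * (2 * s + 1))) z.1 z.2)
        (Ioo (-1) 0 ×ˢ univ) := by
      have hs : ContDiff ℝ ∞ (fun z : ℝ × V => ((t + d * (2 * z.1 + 1), z.2) : ℝ × V)) := by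
        fun_prop
      exact hv.comp hs.contDiffOn (fun z hz => ⟨hmap z.1 hz.1, mem_univ _⟩)
    obtain ⟨h1, h2⟩ := h g C hg (fun s => v (t + d * (2 * s + 1))) hv'
    constructor
    · have hs : ContDiff ℝ ∞ (fun z : ℝ × V => ((((z.1 - t) / d - 1) / 2, z.2) : ℝ × V)) := by
        fun_prop
      have h3 := h1.comp hs.contDiffOn (s := Ioo (t - d) (t + d) ×ˢ univ) (by
        rintro z ⟨hz, -⟩
        refine ⟨⟨?_, ?_⟩, mem_univ _⟩
        · have : -1 < (z.1 - t) / d := by
            rw [lt_div_iff₀ hd]; linarith [hz.1]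
          simp only
          linarith
        · have : (z.1 - t) / d < 1 := by
            rw [div_lt_iff₀ hd]; linarith [hz.2]
          simp only
          linarith)
      refine h3.congr ?_
      rintro z -
      simp only [Function.comp_apply]
      have e : t + d * (2 * (((z.1 - t) / d - 1) / 2) + 1) = z.1 := by
        field_simp
        ring
      rw [e]
    · intro x i
      have h3 := h2 (-1 / 2) (by norm_num) x i
      have e1 := deriv_aff (fun s => TT g (v s) x i) t d
      rw [e1] at h3
      have e2 : (fun (y : V) (i : Fin 3) =>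
          deriv (fun s => (fun s => v (t + d * (2 * s + 1))) s y i) (-1 / 2)) =
          fun y i => (2 * d) * deriv (fun s => v s y i) t := by
        funext y i
        exact deriv_aff (fun s => v s y i) t d
      rw [e2, TT_cmul g (2 * d) (fun y i => deriv (fun s => v s y i) t) x i] at h3
      exact mul_left_cancel₀ (by positivity) h3
  refine ⟨?_, fun t ht => (key t ht).choose_spec.2.2⟩
  rintro ⟨t, x⟩ ⟨ht, -⟩
  obtain ⟨d, hd, h1, -⟩ := key t ht
  have hmem : Ioo (t - d) (t + d) ×ˢ (univ : Set V) ∈ 𝓝 (t, x) :=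
    prod_mem_nhds (Ioo_mem_nhds (by linarith) (by linarith)) Filter.univ_mem
  exact (h1.contDiffAt hmem).contDiffWithinAt

end Pool.Agent.Y577.NS
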