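import Pool.Agent.Y8.Stm6
import Pool.Agent.Y8.Cross

/-!
NS/Y8 S_WEN (job 349, helper8): the energy inequality for the field without its harmonic part.
-/

open MeasureTheory Set Metric Filter Topology
open scoped ContDiff NNReal

namespace Pool.Agent.Y577.NS

open H459R3.NS W221.NS Pool.Agent.Y8

theorem pdmul {f g : V → ℝ} (hf : ContDiff ℝ ∞ f) (hg : ContDiff ℝ ∞ g) (i : Fin 3) :
    pd i (fun x => f x * g x) = fun x => f x * pd i g x + g x * pd i f x := by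
  funext x
  unfold pd
  rw [fderiv_fun_mul (hf.differentiable (by simp) x) (hg.differentiable (by simp) x)]
  simp

theorem pdadd {f g : V → ℝ} (hf : ContDiff ℝ ∞ f) (hg : ContDiff ℝ ∞ g) (i : Fin 3) :
    pd i (fun x => f x + g x) = fun x => pd i f x + pd i g x := by
  funext x
  unfold pd
  rw [fderiv_fun_add (hf.differentiable (by simp) x) (hg.differentiable (by simp) x)]
  simp

theorem sm_pd {f : V → ℝ} (hf : ContDiff ℝ ∞ f) (i : Fin 3) : ContDiff ℝ ∞ (pd i f) :=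
  Pool.Agent.W583.MD.sm_pd hf i

/-- Bounds for products up to order two. -/
theorem prod_bd {f g : V → ℝ} (hf : ContDiff ℝ ∞ f) (hg : ContDiff ℝ ∞ g) {A B : ℝ}
    (hA : 0 ≤ A) (hB : 0 ≤ B)
    (f0 : ∀ x, |f x| ≤ A) (f1 : ∀ i x, |pd i f x| ≤ A) (f2 : ∀ i j x, |pd i (pd j f) x| ≤ A)
    (g0 : ∀ x, |g x| ≤ B) (g1 : ∀ i x, |pd i g x| ≤ B) (g2 : ∀ i j x, |pd i (pd j g) x| ≤ B) :
    (∀ x, |f x * g x| ≤ 4 * (A * B)) ∧ (∀ x i, |pd i (fun x => f x * g x) x| ≤ 4 * (A * B)) ∧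
      ∀ x i j, |pd i (pd j (fun x => f x * g x)) x| ≤ 4 * (A * B) := by
  have hAB : 0 ≤ A * B := mul_nonneg hA hB
  have pr : ∀ {a b : ℝ}, |a| ≤ A → |b| ≤ B → |a * b| ≤ A * B := by
    intro a b ha hb
    rw [abs_mul]
    exact mul_le_mul ha hb (abs_nonneg _) hA
  have pr' : ∀ {a b : ℝ}, |b| ≤ B → |a| ≤ A → |b * a| ≤ A * B := by
    intro a b hb ha
    rw [mul_comm]
    exact pr ha hb
  refine ⟨fun x => ?_, fun x i => ?_, fun x i j => ?_⟩
  · have := pr (f0 x) (g0 x)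
    linarith
  · rw [pdmul hf hg]
    have h1 := pr (f0 x) (g1 i x)
    have h2 := pr' (g0 x) (f1 i x)
    have h3 := abs_add_le (f x * pd i g x) (g x * pd i f x)
    simp only
    linarith
  · rw [pdmul hf hg, pdadd (hf.mul (sm_pd hg j)) (hg.mul (sm_pd hf j)),
      pdmul hf (sm_pd hg j), pdmul hg (sm_pd hf j)]
    simp only
    have h1 := pr (f0 x) (g2 i j x)
    have h2 := pr' (g1 j x) (f1 i x)
    have h3 := pr' (g0 x) (f2 i j x)
    have h4 := pr (f1 j x) (g1 i x)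
    have h5 := abs_add_le (f x * pd i (pd j g) x + pd j g x * pd i f x)
      (g x * pd i (pd j f) x + pd j f x * pd i g x)
    have h6 := abs_add_le (f x * pd i (pd j g) x) (pd j g x * pd i f x)
    have h7 := abs_add_le (g x * pd i (pd j f) x) (pd j f x * pd i g x)
    linarith

/-- Bounds of a moving test function. -/
theorem mt_bd {H : Set ℝ} {α β ρ : ℝ} {Ψ : ℝ → V → ℝ} {y y' : ℝ → V} (hM : MT H α β Ψ y y' ρ)
    {a b : ℝ} (ha : α < a) (hb : b < β) : ∃ M L : ℝ, 0 ≤ M ∧ 0 ≤ L ∧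
      (∀ τ ∈ Icc a b, ContDiff ℝ ∞ (mv Ψ y τ) ∧ (∀ x ∉ ball (0 : V) 1, mv Ψ y τ x = 0) ∧
        (∀ x, |mv Ψ y τ x| ≤ M) ∧ (∀ j x, |pd j (mv Ψ y τ) x| ≤ M) ∧
        ∀ i j x, |pd i (pd j (mv Ψ y τ)) x| ≤ M) ∧
      ∀ σ ∈ Icc a b, ∀ τ ∈ Icc a b, ∀ x, |mv Ψ y τ x - mv Ψ y σ x| ≤ L * |τ - σ| := by
  obtain ⟨M0, hM00, hM0⟩ := tbd hM.sm hM.rho hM.supp ha hb
  have h1 : ∀ j, ∃ M1 : ℝ, 0 ≤ M1 ∧ ∀ τ ∈ Icc a b, ∀ x i, |pd i (pd j (Ψ τ)) x| ≤ M1 := by
    intro j
    obtain ⟨M1, hM10, hM1⟩ := tbd (φ := fun t => pd j (Ψ t)) (pd_joint isOpen_Ioo hM.sm j) hM.rho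
      (fun t ht z hz => pd_zero' (sl_sm hM.sm ht) hM.rho (hM.supp t ht) hz j) ha hb
    exact ⟨M1, hM10, fun τ hτ x i => (hM1 τ hτ x).2.2.2 i⟩
  choose M1 hM10 hM1 using h1
  have hsub : ∀ τ ∈ Icc a b, τ ∈ Ioo α β := fun τ hτ => ⟨ha.trans_le hτ.1, hτ.2.trans_lt hb⟩
  obtain ⟨B0, hB0⟩ := isCompact_Icc.exists_bound_of_continuousOn
    (hM.cont.mono (show Icc a b ⊆ Ioo α β from hsub))
  set B := |B0| with hBdef
  have hBn : 0 ≤ B := abs_nonneg _
  have hB : ∀ τ ∈ Icc a b, ‖y' τ‖ ≤ B := fun τ hτ => (hB0 τ hτ).trans (le_abs_self _)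
  have hS : 0 ≤ ∑ j, M1 j := Finset.sum_nonneg fun j _ => hM10 j
  have hSj : ∀ j, M1 j ≤ ∑ j, M1 j := fun j =>
    Finset.single_le_sum (f := M1) (fun i _ => hM10 i) (Finset.mem_univ j)
  refine ⟨M0 + ∑ j, M1 j, M0 * (1 + 3 * B), by positivity, by positivity, ?_, ?_⟩
  · intro τ hτ
    have e : mv Ψ y τ = fun x => Ψ τ (x - y τ) := rfl
    refine ⟨(sl_sm hM.sm (hsub τ hτ)).comp (contDiff_id.sub contDiff_const), ?_, ?_, ?_, ?_⟩
    · intro x hx
      refine hM.supp τ (hsub τ hτ) _ fun h' => hx ?_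
      rw [mem_ball_zero_iff] at h' ⊢
      have h2 := hM.ins τ (hsub τ hτ)
      have h3 : ‖x‖ ≤ ‖x - y τ‖ + ‖y τ‖ := by
        have := norm_add_le (x - y τ) (y τ)
        rwa [sub_add_cancel] at this
      linarith
    · intro x
      have := (hM0 τ hτ (x - y τ)).1
      unfold mv
      linarith
    · intro j x
      rw [e, pd_shift (f := Ψ τ)]
      have := (hM0 τ hτ (x - y τ)).2.2.2 j
      simp only
      linarith
    · intro i j x
      rw [e, pd_shift (f := Ψ τ), pd_shift (f := pd j (Ψ τ))]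
      have := hM1 j τ hτ (x - y τ) i
      have := hSj j
      simp only
      linarith
  · intro σ hσ τ hτ x
    refine Convex.norm_image_sub_le_of_norm_hasDerivWithin_le (f := fun s => mv Ψ y s x)
      (f' := fun s => deriv (fun s' => Ψ s' (x - y s)) s - ∑ j, y' s j * pd j (Ψ s) (x - y s))
      (s := Icc a b) (C := M0 * (1 + 3 * B)) (fun s hs' => ?_) (fun s hs' => ?_)
      (convex_Icc _ _) hσ hτ
    · exact (mv_dt hM.sm (hsub s hs') (hM.der s (hsub s hs')) x).hasDerivWithinAt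
    · obtain ⟨-, m1, -, m3⟩ := hM0 s hs' (x - y s)
      rw [Real.norm_eq_abs]
      refine (abs_sub _ _).trans ?_
      have ey : |∑ j, y' s j * pd j (Ψ s) (x - y s)| ≤ 3 * (B * M0) := by
        refine (Finset.abs_sum_le_sum_abs _ _).trans ?_
        have h : ∀ j ∈ Finset.univ, |y' s j * pd j (Ψ s) (x - y s)| ≤ B * M0 := fun j _ => by
          rw [abs_mul]
          exact mul_le_mul ((norm_le_pi_norm (y' s) j).trans (hB s hs')) (m3 j)
            (abs_nonneg _) hBn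
        refine (Finset.sum_le_sum h).trans ?_
        simp only [Finset.sum_const, Finset.card_univ, Fintype.card_fin, nsmul_eq_mul]
        norm_num
      linarith

/-- Weighted integrals over the unit ball. -/
theorem w_int {v : V → V} (hv : ContDiff ℝ ∞ v) {B : ℝ} (hB : A2 0 8 v ≤ B) {f g : V → ℝ}
    {c : ℝ} (hfb : ∀ x, |f x| ≤ 1 + nsq v x) (hc : 0 ≤ c)
    (hgb : ∀ x, |g x| ≤ c) (hg0 : ∀ x ∉ ball (0 : V) 1, g x = 0) :
    |∫ x, f x * g x| ≤ c * (volume.real (ball (0 : V) 1) + B) := by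
  have hnc := (nsq_sm hv).continuous
  rw [← ball_int_eq (a := 0) (R := 1) fun z hz => by rw [hg0 z hz, mul_zero]]
  have h1 : IntegrableOn (fun x => c * (1 + nsq v x)) (ball (0 : V) 1) :=
    ballint (continuous_const.mul (continuous_const.add hnc)) _ _
  refine (abs_int_le h1 (ae_of_all _ fun x => ?_)).trans ?_
  · rw [abs_mul, mul_comm c]
    exact mul_le_mul (hfb x) (hgb x) (abs_nonneg _) (by have := nsq_nn v x; linarith)
  · rw [integral_const_mul]
    refine mul_le_mul_of_nonneg_left ?_ hc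
    rw [integral_add (ballint continuous_const _ _) (ballint hnc _ _)]
    have e1 : ∫ _ in ball (0 : V) 1, (1 : ℝ) = volume.real (ball (0 : V) 1) := by
      rw [setIntegral_const, smul_eq_mul, mul_one]
    rw [e1]
    have e2 : ∫ x in ball (0 : V) 1, nsq v x ≤ A2 0 8 v := by
      unfold A2
      exact setIntegral_mono_set (ballint hnc _ _) (ae_of_all _ fun x => nsq_nn v x)
        (ball_subset_ball (by norm_num)).eventuallyLE
    linarith

theorem comp_le (v : V → V) (i : Fin 3) (x : V) : |v x i| ≤ 1 + nsq v x := by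
  have := comp_sq_le v x i
  nlinarith [abs_nonneg (v x i), sq_abs (v x i), sq_nonneg (|v x i| - 1)]

/-- The difference of the two energies. -/
noncomputable def cc (v F : ℝ → V → V) (Ψ : ℝ → V → ℝ) (y : ℝ → V) (τ : ℝ) : ℝ :=
  (∫ z, nsq (F τ) z * mv Ψ y τ z) - 2 * ∑ i, ∫ z, v τ z i * (F τ z i * mv Ψ y τ z)

theorem c_mod {H : Set ℝ} {v F : ℝ → V → V} {q : ℝ → V → ℝ} {k : ℝ → ℝ} (hv : WL2 H v q k)
    (hF : Fld H F k) {α β ρ : ℝ} {Ψ : ℝ → V → ℝ} {y y' : ℝ → V} (hM : MT H α β Ψ y y' ρ)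
    {a b : ℝ} (ha : α < a) (hb : b < β) : ∃ K : ℝ, 0 ≤ K ∧ ∀ σ ∈ H, σ ∈ Icc a b → ∀ τ ∈ H,
      τ ∈ Icc a b → σ ≤ τ → |cc v F Ψ y τ - cc v F Ψ y σ| ≤ K * ∫ t in Ioo σ τ, k t := by
  obtain ⟨M, L, hM0, hL0, hMb, hLip⟩ := mt_bd hM ha hb
  obtain ⟨A0, hA0⟩ := hF.bd
  obtain ⟨A1, hA1⟩ := hF.bd2
  obtain ⟨N0, hN0⟩ := hF.md
  obtain ⟨B0, hB0⟩ := hv.bdd
  set A := |A0| + |A1| with hAdef
  have hAn : 0 ≤ A := by positivity
  set N := |N0| with hNdef
  have hNn : 0 ≤ N := abs_nonneg _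
  set W := volume.real (ball (0 : V) 1) + |B0| with hWdef
  have hWn : 0 ≤ W := by positivity
  have hHI : ∀ τ ∈ H, τ ∈ Icc (-1 : ℝ) 0 := fun τ hτ => Ioo_subset_Icc_self (hv.subH hτ)
  have hFb : ∀ τ ∈ H, ∀ x i, |F τ x i| ≤ A := fun τ hτ x i =>
    ((norm_le_pi_norm (F τ x) i).trans (hA0 τ (hHI τ hτ) x)).trans (by
      have := le_abs_self A0
      have := abs_nonneg A1
      linarith)
  have hF1 : ∀ τ ∈ H, ∀ i j x, |pd j (fun y => F τ y i) x| ≤ A := fun τ hτ i j x =>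
    ((hA1 τ hτ x i j 0).1).trans (by
      have := le_abs_self A1
      have := abs_nonneg A0
      linarith)
  have hF2 : ∀ τ ∈ H, ∀ i l j x, |pd l (pd j (fun y => F τ y i)) x| ≤ A := fun τ hτ i l j x =>
    ((hA1 τ hτ x i j l).2).trans (by
      have := le_abs_self A1
      have := abs_nonneg A0
      linarith)
  have hFs : ∀ τ ∈ H, ∀ i, ContDiff ℝ ∞ (fun y => F τ y i) := fun τ hτ i =>
    sl_sm (F := fun t y => F t y i) (comp_joint hF.smH i) hτ
  have hvs : ∀ τ ∈ H, ContDiff ℝ ∞ (v τ) := fun τ hτ => sl_sm hv.smooth_v hτ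
  have hvi : ∀ τ ∈ H, ∀ i, Continuous fun y => v τ y i := fun τ hτ i =>
    (contDiff_pi.1 (hvs τ hτ) i).continuous
  have hB : ∀ τ ∈ H, A2 0 8 (v τ) ≤ |B0| := fun τ hτ => (hB0 τ hτ).trans (le_abs_self _)
  refine ⟨(3 * (A * A) * L + M * (3 * (2 * A * N))) * W +
    2 * (3 * (4 * (A * M) + (A * L + M * N) * W)), by positivity,
    fun σ hσH hσ τ hτH hτ hστ => ?_⟩
  set D := ∫ t in Ioo σ τ, k t with hDdef
  have hD0 : 0 ≤ D := integral_nonneg fun t => hv.knn t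
  have hlow : τ - σ ≤ D := hv.klow σ (hHI σ hσH) τ (hHI τ hτH) hστ
  obtain ⟨s1, s2, s3, s4, s5⟩ := hMb τ hτ
  obtain ⟨r1, r2, r3, r4, r5⟩ := hMb σ hσ
  have hmd : ∀ x, |mv Ψ y τ x - mv Ψ y σ x| ≤ L * D := fun x => by
    refine (hLip σ hσ τ hτ x).trans (mul_le_mul_of_nonneg_left ?_ hL0)
    rwa [abs_of_nonneg (sub_nonneg.2 hστ)]
  have hFd : ∀ x i, |F τ x i - F σ x i| ≤ N * D := fun x i => by
    refine ((norm_le_pi_norm (F τ x - F σ x) i).trans
      (hN0 σ (hHI σ hσH) τ (hHI τ hτH) hστ x)).trans ?_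
    exact mul_le_mul_of_nonneg_right (le_abs_self _) hD0
  -- the products
  have hp : ∀ i x, |F τ x i * mv Ψ y τ x - F σ x i * mv Ψ y σ x| ≤ (A * L + M * N) * D := by
    intro i x
    have := prod_mod (hFb τ hτH x i) (r3 x) (hFd x i) (hmd x)
    linarith
  have hn : ∀ x, |nsq (F τ) x * mv Ψ y τ x - nsq (F σ) x * mv Ψ y σ x| ≤
      (3 * (A * A) * L + M * (3 * (2 * A * N))) * D := by
    intro x
    have q1 : |nsq (F τ) x| ≤ 3 * (A * A) := by
      unfold nsq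
      refine (Finset.abs_sum_le_sum_abs _ _).trans ?_
      have h : ∀ i ∈ Finset.univ, |F τ x i ^ 2| ≤ A * A := fun i _ => by
        rw [sq, abs_mul]
        exact mul_le_mul (hFb τ hτH x i) (hFb τ hτH x i) (abs_nonneg _) hAn
      refine (Finset.sum_le_sum h).trans ?_
      simp only [Finset.sum_const, Finset.card_univ, Fintype.card_fin, nsmul_eq_mul]
      norm_num
    have q2 : |nsq (F τ) x - nsq (F σ) x| ≤ 3 * (2 * A * N) * D := by
      unfold nsq
      rw [← Finset.sum_sub_distrib]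
      refine (Finset.abs_sum_le_sum_abs _ _).trans ?_
      have h : ∀ i ∈ Finset.univ, |F τ x i ^ 2 - F σ x i ^ 2| ≤ 2 * A * N * D := fun i _ => by
        have := prod_mod (hFb τ hτH x i) (hFb σ hσH x i) (hFd x i) (hFd x i)
        rw [← sq, ← sq] at this
        linarith
      refine (Finset.sum_le_sum h).trans ?_
      simp only [Finset.sum_const, Finset.card_univ, Fintype.card_fin, nsmul_eq_mul]
      push_cast
      linarith
    have := prod_mod q1 (r3 x) q2 (hmd x)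
    linarith
  -- the first term
  have t1 : |(∫ z, nsq (F τ) z * mv Ψ y τ z) - ∫ z, nsq (F σ) z * mv Ψ y σ z| ≤
      (3 * (A * A) * L + M * (3 * (2 * A * N))) * W * D := by
    have c1 : ∀ ξ ∈ H, Continuous (nsq (F ξ)) := fun ξ hξ =>
      (nsq_sm (sl_sm hF.smH hξ)).continuous
    have i1 : Integrable fun z => nsq (F τ) z * mv Ψ y τ z :=
      int_csR ((c1 τ hτH).mul s1.continuous) (a := 0) (R := 1) fun z hz => by
        rw [s2 z hz, mul_zero]
    have i2 : Integrable fun z => nsq (F σ) z * mv Ψ y σ z :=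
      int_csR ((c1 σ hσH).mul r1.continuous) (a := 0) (R := 1) fun z hz => by
        rw [r2 z hz, mul_zero]
    rw [← integral_sub i1 i2]
    have h1 := w_int (hvs σ hσH) (hB σ hσH) (f := fun _ => 1)
      (g := fun x => nsq (F τ) x * mv Ψ y τ x - nsq (F σ) x * mv Ψ y σ x)
      (fun x => by rw [abs_one]; have := nsq_nn (v σ) x; linarith)
      (c := (3 * (A * A) * L + M * (3 * (2 * A * N))) * D) (by positivity) hn
      (fun x hx => by rw [s2 x hx, r2 x hx, mul_zero, mul_zero, sub_zero])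
    simp only [one_mul] at h1
    refine h1.trans (le_of_eq ?_)
    rw [hWdef]
    ring
  -- the second term
  have t2 : ∀ i, |(∫ z, v τ z i * (F τ z i * mv Ψ y τ z)) -
      ∫ z, v σ z i * (F σ z i * mv Ψ y σ z)| ≤ (4 * (A * M) + (A * L + M * N) * W) * D := by
    intro i
    have i1 : Integrable fun x => v σ x i * (F τ x i * mv Ψ y τ x) :=
      int_csR ((hvi σ hσH i).mul ((hFs τ hτH i).continuous.mul s1.continuous))
        (a := 0) (R := 1) fun z hz => by rw [s2 z hz, mul_zero, mul_zero]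
    have i2 : Integrable fun x => v σ x i * (F σ x i * mv Ψ y σ x) :=
      int_csR ((hvi σ hσH i).mul ((hFs σ hσH i).continuous.mul r1.continuous))
        (a := 0) (R := 1) fun z hz => by rw [r2 z hz, mul_zero, mul_zero]
    have e1 : (∫ z, v τ z i * (F τ z i * mv Ψ y τ z)) -
        (∫ z, v σ z i * (F σ z i * mv Ψ y σ z)) =
        ((∫ z, v τ z i * (F τ z i * mv Ψ y τ z)) - ∫ z, v σ z i * (F τ z i * mv Ψ y τ z)) +
          ∫ z, v σ z i * (F τ z i * mv Ψ y τ z - F σ z i * mv Ψ y σ z) := by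
      have : ∫ z, v σ z i * (F τ z i * mv Ψ y τ z - F σ z i * mv Ψ y σ z) =
          (∫ z, v σ z i * (F τ z i * mv Ψ y τ z)) - ∫ z, v σ z i * (F σ z i * mv Ψ y σ z) := by
        rw [← integral_sub i1 i2]
        congr 1
        funext x
        ring
      rw [this]
      ring
    rw [e1]
    refine (abs_add_le _ _).trans ?_
    obtain ⟨b0, b1, b2⟩ := prod_bd (hFs τ hτH i) s1 hAn hM0 (fun x => hFb τ hτH x i)
      (hF1 τ hτH i) (hF2 τ hτH i) s3 s4 s5
    have h1 := hv.mod (4 * (A * M)) (fun z => F τ z i * mv Ψ y τ z) (by positivity)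
      ((hFs τ hτH i).mul s1)
      (fun z hz => by
        rw [s2 z (fun h => hz (ball_subset_ball (by norm_num) h)), mul_zero])
      b0 b1 b2 σ hσH τ hτH hστ i
    have h2 := w_int (hvs σ hσH) (hB σ hσH) (f := fun x => v σ x i)
      (g := fun x => F τ x i * mv Ψ y τ x - F σ x i * mv Ψ y σ x)
      (comp_le (v σ) i) (c := (A * L + M * N) * D) (by positivity) (hp i)
      (fun x hx => by rw [s2 x hx, r2 x hx, mul_zero, mul_zero, sub_zero])
    rw [← hWdef] at h2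
    have h3 : (4 * (A * M) + (A * L + M * N) * W) * D =
      4 * (A * M) * D + (A * L + M * N) * D * W := by ring
    rw [h3]
    exact add_le_add h1 h2
  have e : cc v F Ψ y τ - cc v F Ψ y σ =
      ((∫ z, nsq (F τ) z * mv Ψ y τ z) - ∫ z, nsq (F σ) z * mv Ψ y σ z) -
      2 * ∑ i, ((∫ z, v τ z i * (F τ z i * mv Ψ y τ z)) -
        ∫ z, v σ z i * (F σ z i * mv Ψ y σ z)) := by
    unfold cc
    rw [Finset.sum_sub_distrib]
    ring
  rw [e]
  have t3 : |∑ i, ((∫ z, v τ z i * (F τ z i * mv Ψ y τ z)) -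
        ∫ z, v σ z i * (F σ z i * mv Ψ y σ z))| ≤
        3 * ((4 * (A * M) + (A * L + M * N) * W) * D) := by
    refine (Finset.abs_sum_le_sum_abs _ _).trans ?_
    refine (Finset.sum_le_sum fun i _ => t2 i).trans ?_
    simp only [Finset.sum_const, Finset.card_univ, Fintype.card_fin, nsmul_eq_mul]
    norm_num
  refine (abs_sub _ _).trans ?_
  rw [abs_mul, abs_two]
  linarith

theorem t_WEN (hA : S_ACX) : S_WEN := by
  intro H v W F q k hv hF hW heq α β ρ Ψ y y' hM s hs t ht hαs hst htβ hpos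
  -- the larger interval
  obtain ⟨a, ha1, ha2⟩ := exists_between hαs
  obtain ⟨b, hb1, hb2⟩ := exists_between htβ
  obtain ⟨K, hK0, hK⟩ := c_mod hv hF hM ha1 hb2
  set J : Set ℝ := H ∩ Ioo α β with hJ
  have hJo : IsOpen J := hv.openH.inter isOpen_Ioo
  -- joint smoothness
  have hmvJ : ContDiffOn ℝ ∞ (fun z : ℝ × V => mv Ψ y z.1 z.2) (J ×ˢ univ) := by
    have h1 : ContDiffOn ℝ ∞ (fun z : ℝ × V => ((z.1, z.2 - y z.1) : ℝ × V)) (J ×ˢ univ) := by
      refine contDiffOn_fst.prodMk (contDiffOn_snd.sub ?_)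
      exact hM.ysm.comp contDiffOn_fst (fun z hz => hz.1)
    exact hM.sm.comp h1 (fun z hz => ⟨hz.1.2, mem_univ _⟩)
  have hvJ : ContDiffOn ℝ ∞ (fun z : ℝ × V => v z.1 z.2) (J ×ˢ univ) :=
    hv.smooth_v.mono (prod_mono inter_subset_left subset_rfl)
  have hWJ : ContDiffOn ℝ ∞ (fun z : ℝ × V => W z.1 z.2) (J ×ˢ univ) :=
    hW.mono (prod_mono inter_subset_left subset_rfl)
  have hFJ : ContDiffOn ℝ ∞ (fun z : ℝ × V => F z.1 z.2) (J ×ˢ univ) :=
    hF.smH.mono (prod_mono inter_subset_left subset_rfl)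
  have hmz : ∀ τ ∈ J, ∀ z ∉ ball (0 : V) 1, mv Ψ y τ z = 0 := by
    intro τ hτ x hx
    refine hM.supp τ hτ.2 _ fun h' => hx ?_
    rw [mem_ball_zero_iff] at h' ⊢
    have h2 := hM.ins τ hτ.2
    have h3 : ‖x‖ ≤ ‖x - y τ‖ + ‖y τ‖ := by
      have := norm_add_le (x - y τ) (y τ)
      rwa [sub_add_cancel] at this
    linarith
  have hdv : ∀ τ ∈ J, HasDerivAt (EW v Ψ y) (deriv (EW v Ψ y) τ) τ := by
    intro τ hτ
    exact (hd_int (F := fun t z => nsq (v t) z * mv Ψ y t z) (a := 0) (R := 1) hJo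
      ((nsq_joint hvJ).mul hmvJ)
      (fun t ht z hz => by rw [hmz t ht z hz, mul_zero]) hτ).differentiableAt.hasDerivAt
  have hdc : ∀ τ ∈ J, HasDerivAt (cc v F Ψ y) (deriv (cc v F Ψ y) τ) τ := by
    intro τ hτ
    have h1 := (hd_int (F := fun t z => nsq (F t) z * mv Ψ y t z) (a := 0) (R := 1) hJo
      ((nsq_joint hFJ).mul hmvJ)
      (fun t ht z hz => by rw [hmz t ht z hz, mul_zero]) hτ)
    have h2 : ∀ i, HasDerivAt (fun t => ∫ z, v t z i * (F t z i * mv Ψ y t z)) _ τ := fun i =>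
      (hd_int (F := fun t z => v t z i * (F t z i * mv Ψ y t z)) (a := 0) (R := 1) hJo
      ((comp_joint hvJ i).mul ((comp_joint hFJ i).mul hmvJ))
      (fun t ht z hz => by rw [hmz t ht z hz, mul_zero, mul_zero]) hτ)
    have h3 := h1.sub ((HasDerivAt.fun_sum fun i (_ : i ∈ Finset.univ) => h2 i).const_mul 2)
    exact h3.differentiableAt.hasDerivAt
  -- the identity
  have hid : ∀ τ ∈ J, EW W Ψ y τ = EW v Ψ y τ + cc v F Ψ y τ := by
    intro τ hτ
    have c0 := (sl_sm hmvJ hτ).continuous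
    have c1 := (sl_sm (F := fun t z => nsq (v t) z) (nsq_joint hvJ) hτ).continuous
    have c2 := (sl_sm (F := fun t z => nsq (F t) z) (nsq_joint hFJ) hτ).continuous
    have c3 : ∀ i, Continuous fun z => v τ z i := fun i =>
      (sl_sm (F := fun t z => v t z i) (comp_joint hvJ i) hτ).continuous
    have c4 : ∀ i, Continuous fun z => F τ z i := fun i =>
      (sl_sm (F := fun t z => F t z i) (comp_joint hFJ i) hτ).continuous
    have i1 : Integrable fun z => nsq (v τ) z * mv Ψ y τ z :=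
      int_csR (c1.mul c0) (a := 0) (R := 1) fun z hz => by rw [hmz τ hτ z hz, mul_zero]
    have i2 : Integrable fun z => nsq (F τ) z * mv Ψ y τ z :=
      int_csR (c2.mul c0) (a := 0) (R := 1) fun z hz => by rw [hmz τ hτ z hz, mul_zero]
    have i3 : ∀ i, Integrable fun z => v τ z i * (F τ z i * mv Ψ y τ z) := fun i =>
      int_csR ((c3 i).mul ((c4 i).mul c0)) (a := 0) (R := 1) fun z hz => by
        rw [hmz τ hτ z hz, mul_zero, mul_zero]
    unfold EW cc
    have i4 : Integrable fun z => 2 * ∑ i, v τ z i * (F τ z i * mv Ψ y τ z) :=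
      (integrable_finsetSum _ fun i _ => i3 i).const_mul 2
    have i5 : Integrable fun z => nsq (F τ) z * mv Ψ y τ z -
        2 * ∑ i, v τ z i * (F τ z i * mv Ψ y τ z) := i2.sub i4
    rw [← integral_finsetSum _ fun i _ => i3 i, ← integral_const_mul, ← integral_sub i2 i4,
      ← integral_add i1 i5]
    congr 1
    funext z
    by_cases hz : z ∈ ball (0 : V) 1
    · have e : ∀ i, W τ z i = v τ z i - F τ z i := fun i => by
        rw [heq τ hτ.1 z hz i]; ring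
      simp only [nsq, e, Fin.sum_univ_three]
      ring
    · simp only [hmz τ hτ z hz, mul_zero, Finset.sum_const_zero, sub_zero, add_zero]
  have hdW : ∀ τ ∈ J, deriv (EW W Ψ y) τ = deriv (EW v Ψ y) τ + deriv (cc v F Ψ y) τ := by
    intro τ hτ
    have h1 : EW W Ψ y =ᶠ[𝓝 τ] fun τ => EW v Ψ y τ + cc v F Ψ y τ := by
      filter_upwards [hJo.mem_nhds hτ] with σ hσ
      exact hid σ hσ
    rw [h1.deriv_eq]
    exact ((hdv τ hτ).add (hdc τ hτ)).deriv
  -- the extension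
  set G : Set ℝ := H ∩ Ioo a b with hG
  have hGo : IsOpen G := hv.openH.inter isOpen_Ioo
  have hGJ : G ⊆ J := fun τ hτ => ⟨hτ.1, ha1.trans hτ.2.1, hτ.2.2.trans hb2⟩
  have hab : a ≤ b := by linarith
  have hkK : Integrable fun t => K * k t := hv.kint.const_mul K
  obtain ⟨cb, hcb1, hcb2, hcb3⟩ := hA a b G (cc v F Ψ y) (fun t => K * k t) hab
    inter_subset_right hkK.integrableOn (fun t => mul_nonneg hK0 (hv.knn t))
    (fun σ hσ τ hτ hστ => by
      rw [integral_const_mul]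
      exact hK σ hσ.1 (Ioo_subset_Icc_self hσ.2) τ hτ.1 (Ioo_subset_Icc_self hτ.2) hστ)
  have hsG : s ∈ G := ⟨hs, ha2, hst.trans_lt hb1⟩
  have htG : t ∈ G := ⟨ht, ha2.trans_le hst, hb1⟩
  obtain ⟨f1, f2⟩ := ftc_mod (F := cb) hkK hst (fun σ hσ τ hτ hστ =>
    hcb3 σ ⟨ha2.le.trans hσ.1, hσ.2.trans hb1.le⟩ τ ⟨ha2.le.trans hτ.1, hτ.2.trans hb1.le⟩ hστ)
  rw [hcb1 s hsG, hcb1 t htG] at f2
  obtain ⟨e1, e2⟩ := hv.en α β ρ Ψ y y' hM s hs t ht hαs hst htβ hpos
  have hae : ∀ᵐ τ ∂(volume.restrict (Ioo s t)),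
      deriv (EW v Ψ y) τ + deriv cb τ = deriv (EW W Ψ y) τ := by
    have h1 : ∀ᵐ τ ∂(volume.restrict (Ioo s t)), τ ∈ H := by
      rw [ae_restrict_iff' measurableSet_Ioo, ae_iff]
      refine measure_mono_null ?_ hv.fullH
      intro τ hτ
      simp only [mem_ofPred_eq, Classical.not_imp] at hτ
      refine ⟨⟨?_, ?_⟩, hτ.2⟩
      · have := hM.low
        linarith [hτ.1.1]
      · have := hM.up
        linarith [hτ.1.2]
    filter_upwards [h1, ae_restrict_mem measurableSet_Ioo] with τ hτH hτ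
    have hτG : τ ∈ G := ⟨hτH, ha2.trans hτ.1, hτ.2.trans hb1⟩
    have h2 : cb =ᶠ[𝓝 τ] cc v F Ψ y := by
      filter_upwards [hGo.mem_nhds hτG] with σ hσ
      exact hcb1 σ hσ
    rw [h2.deriv_eq, hdW τ (hGJ hτG)]
  refine ⟨(e1.add f1).congr hae, ?_⟩
  rw [← integral_congr_ae hae, integral_add e1 f1, ← f2, hid s (hGJ hsG), hid t (hGJ htG)]
  linarith

end Pool.Agent.Y577.NS
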